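import Pool.Agent.Helper78.LD4.Red
import Pool.Agent.Helper41.LD4.Defs

/-!
# Rational bases: the discrepancy from the system of the base (block DI1 of LD4)
-/

set_option autoImplicit false

namespace Pool.Agent.Helper78.LD4

open Finset
open Pool.Agent.Helper41.LD (haar)
open Pool.Agent.Helper41.LD4 (psi fb Ib)

theorem exists_enum (T : Finset ℕ) : ∃ g : ℕ → ℕ, ∀ f : ℕ → ℝ, ∑ n ∈ T, f n = ∑ i ∈ range T.card, f (g i) := by
  classical
  refine ⟨fun i => if h : i < T.card then (T.orderEmbOfFin rfl ⟨i, h⟩) else 0, fun f => ?_⟩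
  rw [Finset.sum_range]
  calc ∑ n ∈ T, f n = ∑ n ∈ (univ.map (T.orderEmbOfFin rfl).toEmbedding), f n := by rw [map_orderEmbOfFin_univ]
    _ = ∑ i, f (T.orderEmbOfFin rfl i) := by rw [sum_map]; rfl
    _ = _ := by
      refine sum_congr rfl fun i _ => ?_
      simp only [i.2, dite_true, Fin.eta]

theorem hel_psi {p a : ℕ} (hp : 0 < p) (ha : 1 ≤ a) (d : ℕ) : hel p a d = (a / p) * psi a d := by
  have hp0 : (0 : ℝ) < p := by exact_mod_cast hp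
  have ha0 : (0 : ℝ) < a := by exact_mod_cast ha
  unfold hel psi
  rw [if_neg (show ¬ a = 0 by omega)]
  split_ifs
  · field_simp
  · ring
  · ring

theorem psi_le (a d : ℕ) : |psi a d| ≤ 1 := by
  unfold psi
  split_ifs with h1 h2 h3
  · simp
  · have ha : (1 : ℝ) ≤ a := by exact_mod_cast (show 1 ≤ a by omega)
    rw [abs_of_nonneg (by positivity), div_le_one (by linarith)]
    exact ha
  · simp
  · simp

theorem wj_psi {p : ℕ} (hp : 0 < p) {j : ℕ} (hj : j < p) (t : ℝ) :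
    wj p j t = ∑ a ∈ Ico 1 p, (psi a j * (a / (a + 1))) * psi a (dig p t) := by
  rw [wj_eq hp hj]
  refine sum_congr rfl fun a ha => ?_
  have ha1 := (mem_Ico.1 ha).1
  have ha0 : (0 : ℝ) < a := by exact_mod_cast ha1
  have hp0 : (0 : ℝ) < p := by exact_mod_cast hp
  rw [hel_psi hp ha1, hel_psi hp ha1]
  field_simp

theorem wj_T {p : ℕ} (hp : 0 < p) {T : Finset ℕ} {y x : ℕ → ℝ} {E : ℝ} (hE : 0 ≤ E)
    (h : ∀ a, 1 ≤ a → a < p → |∑ n ∈ T, psi a (dig p (y n)) * x n| ≤ E) {j : ℕ} (hj : j < p) :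
    |∑ n ∈ T, wj p j (y n) * x n| ≤ p * E := by
  have h1 : ∑ n ∈ T, wj p j (y n) * x n =
      ∑ a ∈ Ico 1 p, (psi a j * (a / (a + 1))) * ∑ n ∈ T, psi a (dig p (y n)) * x n := by
    simp_rw [mul_sum]
    rw [sum_comm]
    refine sum_congr rfl fun n _ => ?_
    rw [wj_psi hp hj, sum_mul]
    refine sum_congr rfl fun a _ => ?_
    ring
  rw [h1]
  refine (abs_sum_le_sum_abs _ _).trans ?_
  have h2 : ∀ a ∈ Ico 1 p, |(psi a j * ((a : ℝ) / (a + 1))) * ∑ n ∈ T, psi a (dig p (y n)) * x n| ≤ E := by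
    intro a ha
    rw [mem_Ico] at ha
    rw [abs_mul]
    have h3 : |psi a j * ((a : ℝ) / (a + 1))| ≤ 1 := by
      rw [abs_mul, abs_of_nonneg (show (0 : ℝ) ≤ (a : ℝ) / (a + 1) by positivity)]
      have h4 : (a : ℝ) / (a + 1) ≤ 1 := by
        rw [div_le_one (by positivity)]
        linarith
      calc |psi a j| * ((a : ℝ) / (a + 1)) ≤ 1 * 1 := mul_le_mul (psi_le a j) h4 (by positivity) zero_le_one
        _ = 1 := one_mul 1
    calc _ ≤ 1 * E := mul_le_mul h3 (h a ha.1 ha.2) (abs_nonneg _) zero_le_one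
      _ = E := one_mul E
  refine (sum_le_sum h2).trans ?_
  rw [sum_const, Nat.card_Ico, nsmul_eq_mul]
  have h3 : ((p - 1 : ℕ) : ℝ) ≤ p := by exact_mod_cast Nat.sub_le p 1
  exact mul_le_mul_of_nonneg_right h3 hE

theorem grid_T {p : ℕ} (hp : 0 < p) {K b : ℕ} (hK : 1 ≤ K) (hb : b ≤ p * 2 ^ K) {T : Finset ℕ} {y : ℕ → ℝ} {E : ℝ} (hE : 0 ≤ E)
    (h : ∀ t ∈ Ib p K, |∑ n ∈ T, fb p t (y n)| ≤ E) :
    |∑ n ∈ T, G p (b / (p * 2 ^ K)) (y n)| ≤ (p + K) * (p * E) := by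
  obtain ⟨g, hg⟩ := exists_enum T
  rw [hg]
  refine G_grid hp hb (by positivity) (y := fun i => y (g i)) (fun j hj => ?_) (fun j hj k hk i hi => ?_)
  · have h1 := wj_T hp (T := T) (y := y) (x := fun _ => 1) hE (fun a ha1 ha2 => by
      have h2 := h (a, 0, 0, 0) (by
        unfold Ib
        rw [mem_filter, mem_product, mem_product, mem_product, mem_range, mem_range, mem_range, mem_range]
        exact ⟨⟨ha2, Nat.zero_lt_two, hK, show 0 < 2 ^ K by positivity⟩, ha1, Or.inl ⟨rfl, rfl, rfl⟩⟩)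
      simpa [fb, dig] using h2) hj
    rw [hg] at h1
    simpa using h1
  · have h1 := wj_T hp (T := T) (y := y) (x := fun n => haar k i (p * y n)) hE (fun a ha1 ha2 => by
      have h2 := h (a, 1, k, i) (by
        unfold Ib
        rw [mem_filter, mem_product, mem_product, mem_product, mem_range, mem_range, mem_range, mem_range]
        exact ⟨⟨ha2, Nat.one_lt_two, hk, hi.trans_le (Nat.pow_le_pow_right (by norm_num) hk.le)⟩, ha1, Or.inr ⟨rfl, hi⟩⟩)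
      simpa [fb, dig] using h2) hj
    rw [hg] at h1
    exact h1

/-! ### Differences of discrepancy functions -/

theorem H_le {a b : ℝ} (ha0 : 0 ≤ a) (ha1 : a ≤ 1) (hb0 : 0 ≤ b) (hb1 : b ≤ 1) (t : ℝ) : |(pre a t - a) - (pre b t - b)| ≤ 1 := by
  have r1 := pre_range a t
  have r2 := pre_range b t
  rcases le_total a b with h | h
  · have m := pre_mono h t
    rw [abs_le]
    constructor <;> linarith
  · have m := pre_mono h t
    rw [abs_le]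
    constructor <;> linarith

noncomputable def ZT (y : ℕ → ℝ) (T : Finset ℕ) (β : ℝ) : ℝ := ∑ n ∈ T, (pre β (y n) - β)

theorem ZT_card (y : ℕ → ℝ) (T : Finset ℕ) {α β : ℝ} (h0 : 0 ≤ α) (h1 : α ≤ 1) (h2 : 0 ≤ β) (h3 : β ≤ 1) :
    |ZT y T β - ZT y T α| ≤ T.card := by
  unfold ZT
  rw [← sum_sub_distrib]
  refine (abs_sum_le_sum_abs _ _).trans ?_
  calc ∑ n ∈ T, |(pre β (y n) - β) - (pre α (y n) - α)| ≤ ∑ n ∈ T, (1 : ℝ) := sum_le_sum fun n _ => H_le h2 h3 h0 h1 _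
    _ = T.card := by simp

theorem one_term {F : ℕ → ℝ} (hF : ∀ n, |F n| ≤ 1) {r Q : ℕ} (hrQ : r ≤ Q) (n e : ℕ) :
    |∑ m ∈ Ico n (n + r), (if m % Q = e then F m else 0)| ≤ 1 := by
  rw [← sum_filter]
  refine (abs_sum_le_sum_abs _ _).trans ?_
  have h1 : ((Ico n (n + r)).filter fun m => m % Q = e).card ≤ 1 := by
    rw [card_le_one]
    have key : ∀ a b : ℕ, n ≤ a → a < n + r → n ≤ b → b < n + r → a % Q = e → b % Q = e → a ≤ b → a = b := by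
      intro a b ha1 ha2 hb1 hb2 ha hb hab
      have h2 : (b - a) % Q = 0 := Nat.sub_mod_eq_zero_of_mod_eq (by rw [ha, hb])
      have h3 : b - a = 0 := Nat.eq_zero_of_dvd_of_lt (Nat.dvd_of_mod_eq_zero h2) (by omega)
      omega
    intro a ha b hb
    rw [mem_filter, mem_Ico] at ha hb
    rcases le_total a b with h | h
    · exact key a b ha.1.1 ha.1.2 hb.1.1 hb.1.2 ha.2 hb.2 h
    · exact (key b a hb.1.1 hb.1.2 ha.1.1 ha.1.2 hb.2 ha.2 h).symm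
  calc ∑ m ∈ (Ico n (n + r)).filter (fun m => m % Q = e), |F m| ≤ ∑ m ∈ (Ico n (n + r)).filter (fun m => m % Q = e), (1 : ℝ) :=
        sum_le_sum fun m _ => hF m
    _ = (((Ico n (n + r)).filter fun m => m % Q = e).card : ℝ) := by simp
    _ ≤ 1 := by exact_mod_cast h1

theorem shift_T {F : ℕ → ℝ} (hF : ∀ n, |F n| ≤ 1) {n₁ n₂ r Q e : ℕ} (hn : n₁ ≤ n₂) (hrQ : r ≤ Q) (he : e < Q) :
    |∑ n ∈ Ico n₁ n₂ with n % Q = e, F (n + r)| ≤ |∑ n ∈ Ico n₁ n₂ with n % Q = (e + r) % Q, F n| + 2 := by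
  set Φ : ℕ → ℝ := fun m => if m % Q = (e + r) % Q then F m else 0 with hΦ
  have h1 : ∑ n ∈ Ico n₁ n₂ with n % Q = e, F (n + r) = ∑ m ∈ Ico (n₁ + r) (n₂ + r), Φ m := by
    rw [sum_filter, ← sum_Ico_add']
    refine sum_congr rfl fun n _ => ?_
    simp only [hΦ]
    have h2 : n % Q = e ↔ (n + r) % Q = (e + r) % Q := by
      constructor
      · intro h
        rw [Nat.add_mod, h, Nat.add_mod e r Q, Nat.mod_eq_of_lt he]
      · intro h
        have h3 : n ≡ e [MOD Q] := Nat.ModEq.add_right_cancel' r h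
        have h4 : n % Q = e % Q := h3
        rwa [Nat.mod_eq_of_lt he] at h4
    simp only [h2]
  have h2 : ∑ n ∈ Ico n₁ n₂ with n % Q = (e + r) % Q, F n = ∑ m ∈ Ico n₁ n₂, Φ m := by
    rw [sum_filter]
  have h3 := sum_Ico_consecutive Φ (show n₁ ≤ n₁ + r by omega) (show n₁ + r ≤ n₂ + r by omega)
  have h4 := sum_Ico_consecutive Φ hn (show n₂ ≤ n₂ + r by omega)
  have h5 : |∑ m ∈ Ico n₁ (n₁ + r), Φ m| ≤ 1 := one_term hF hrQ n₁ _
  have h6 : |∑ m ∈ Ico n₂ (n₂ + r), Φ m| ≤ 1 := one_term hF hrQ n₂ _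
  rw [h1, h2]
  have h7 : ∑ m ∈ Ico (n₁ + r) (n₂ + r), Φ m = ∑ m ∈ Ico n₁ n₂, Φ m + (∑ m ∈ Ico n₂ (n₂ + r), Φ m - ∑ m ∈ Ico n₁ (n₁ + r), Φ m) := by
    linarith
  rw [h7]
  refine (abs_add_le _ _).trans (add_le_add_right ?_ _)
  exact (abs_sub _ _).trans (by linarith)

/-- the step: the part which is a function of `p y` -/
theorem step_T {p q r Q e : ℕ} (hq : 1 ≤ q) (hrQ : r ≤ Q) (he : e < Q) {y : ℕ → ℝ} (hy : ∀ n, (p : ℝ) * y n = q * y (n + r))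
    {n₁ n₂ : ℕ} (hn : n₁ ≤ n₂) {D : ℝ}
    (hD : ∀ α β : ℝ, 0 ≤ α → α ≤ 1 → 0 ≤ β → β ≤ 1 →
      |ZT y ((Ico n₁ n₂).filter fun n => n % Q = (e + r) % Q) β - ZT y ((Ico n₁ n₂).filter fun n => n % Q = (e + r) % Q) α| ≤ D)
    {f g : ℝ} (hf0 : 0 ≤ f) (hf1 : f < 1) (hg0 : 0 ≤ g) (hg1 : g < 1) :
    |∑ n ∈ Ico n₁ n₂ with n % Q = e, ((pre f (p * y n) - f) - (pre g (p * y n) - g))| ≤ q * (D + 2) := by
  have hq0 : (0 : ℝ) < q := by exact_mod_cast hq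
  have h1 : ∀ n ∈ (Ico n₁ n₂).filter (fun n => n % Q = e), ((pre f (p * y n) - f) - (pre g (p * y n) - g)) =
      ∑ i ∈ range q, ((pre ((i + f) / q) (y (n + r)) - (i + f) / q) - (pre ((i + g) / q) (y (n + r)) - (i + g) / q)) := by
    intro n _
    rw [hy n, pre_mul hq hf0 hf1, pre_mul hq hg0 hg1]
    have h2 : f - g = ∑ i ∈ range q, (((i : ℝ) + f) / q - ((i : ℝ) + g) / q) := by
      have h3 : ∀ i ∈ range q, (((i : ℝ) + f) / q - ((i : ℝ) + g) / q) = (f - g) / q := by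
        intro i _
        rw [← sub_div]
        congr 1
        ring
      rw [sum_congr rfl h3, sum_const, card_range, nsmul_eq_mul]
      field_simp
    have h3 : (∑ i ∈ range q, (pre ((i + f) / q) (y (n + r)) - pre (i / q) (y (n + r))) - f) -
        (∑ i ∈ range q, (pre ((i + g) / q) (y (n + r)) - pre (i / q) (y (n + r))) - g) =
        (∑ i ∈ range q, (pre ((i + f) / q) (y (n + r)) - pre (i / q) (y (n + r))) -
          ∑ i ∈ range q, (pre ((i + g) / q) (y (n + r)) - pre (i / q) (y (n + r)))) - (f - g) := by ring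
    rw [h3, h2, ← sum_sub_distrib, ← sum_sub_distrib]
    refine sum_congr rfl fun i _ => ?_
    ring
  rw [sum_congr rfl h1, sum_comm]
  refine (abs_sum_le_sum_abs _ _).trans ?_
  have h2 : ∀ i ∈ range q, |∑ n ∈ Ico n₁ n₂ with n % Q = e, ((pre ((i + f) / q) (y (n + r)) - (i + f) / q) -
      (pre ((i + g) / q) (y (n + r)) - (i + g) / q))| ≤ D + 2 := by
    intro i hi
    have hiq : (i : ℝ) + 1 ≤ q := by exact_mod_cast mem_range.1 hi
    have hi0 : (0 : ℝ) ≤ i := Nat.cast_nonneg i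
    have f0 : 0 ≤ ((i : ℝ) + f) / q := by positivity
    have f1 : ((i : ℝ) + f) / q ≤ 1 := by rw [div_le_one hq0]; linarith
    have g0 : 0 ≤ ((i : ℝ) + g) / q := by positivity
    have g1 : ((i : ℝ) + g) / q ≤ 1 := by rw [div_le_one hq0]; linarith
    have h3 := shift_T (F := fun m => (pre ((i + f) / q) (y m) - (i + f) / q) - (pre ((i + g) / q) (y m) - (i + g) / q))
      (fun m => H_le f0 f1 g0 g1 (y m)) hn hrQ he
    refine h3.trans (add_le_add_left ?_ _)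
    have h4 := hD _ _ g0 g1 f0 f1
    unfold ZT at h4
    rw [← sum_sub_distrib] at h4
    exact h4
  refine (sum_le_sum h2).trans ?_
  rw [sum_const, card_range, nsmul_eq_mul]

/-- improvement of a bound -/
theorem improve_T {p : ℕ} (hp : 0 < p) {y : ℕ → ℝ} {T : Finset ℕ} {K : ℕ} {S R N₀ : ℝ}
    (hG : ∀ b ≤ p * 2 ^ K, |∑ n ∈ T, G p (b / (p * 2 ^ K)) (y n)| ≤ S)
    (hR : ∀ f g : ℝ, 0 ≤ f → f < 1 → 0 ≤ g → g < 1 → |∑ n ∈ T, ((pre f (p * y n) - f) - (pre g (p * y n) - g))| ≤ R)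
    (hN : (T.card : ℝ) ≤ N₀) {α β : ℝ} (h0 : 0 ≤ α) (h1 : α ≤ β) (h2 : β ≤ 1) :
    |ZT y T β - ZT y T α| ≤ 2 * S + 1 / p * R + 2 * N₀ / (p * 2 ^ K) := by
  have hp0 : (0 : ℝ) < p := by exact_mod_cast hp
  have hM0 : (0 : ℝ) < (p : ℝ) * 2 ^ K := by positivity
  have hN0 : (0 : ℝ) ≤ N₀ := (Nat.cast_nonneg _).trans hN
  -- points of the grid
  have hgrid : ∀ a b : ℕ, a ≤ p * 2 ^ K → b ≤ p * 2 ^ K →
      |ZT y T (b / (p * 2 ^ K)) - ZT y T (a / (p * 2 ^ K))| ≤ 2 * S + 1 / p * R := by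
    intro a b ha hb
    have hbnd : ∀ c : ℕ, c ≤ p * 2 ^ K → 0 ≤ (c : ℝ) / (p * 2 ^ K) ∧ (c : ℝ) / (p * 2 ^ K) ≤ 1 := by
      intro c hc
      refine ⟨by positivity, ?_⟩
      rw [div_le_one hM0]
      exact_mod_cast hc
    obtain ⟨ha0, ha1⟩ := hbnd a ha
    obtain ⟨hb0, hb1⟩ := hbnd b hb
    set α := (a : ℝ) / (p * 2 ^ K) with hα
    set β := (b : ℝ) / (p * 2 ^ K) with hβ
    have h1 : ZT y T β - ZT y T α = (∑ n ∈ T, G p β (y n) - ∑ n ∈ T, G p α (y n)) +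
        (1 / p) * ∑ n ∈ T, ((pre (Int.fract (p * β)) (p * y n) - Int.fract (p * β)) -
          (pre (Int.fract (p * α)) (p * y n) - Int.fract (p * α))) := by
      unfold ZT
      rw [← sum_sub_distrib, ← sum_sub_distrib, mul_sum, ← sum_add_distrib]
      refine sum_congr rfl fun n _ => ?_
      rw [pre_sub hp hb0 hb1, pre_sub hp ha0 ha1]
      ring
    rw [h1]
    have h2 := hR _ _ (Int.fract_nonneg ((p : ℝ) * β)) (Int.fract_lt_one _) (Int.fract_nonneg ((p : ℝ) * α)) (Int.fract_lt_one _)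
    refine (abs_add_le _ _).trans ?_
    have h3 : |∑ n ∈ T, G p β (y n) - ∑ n ∈ T, G p α (y n)| ≤ 2 * S := by
      refine (abs_sub _ _).trans ?_
      have := hG b hb
      have := hG a ha
      linarith
    have h4 : |(1 / (p : ℝ)) * ∑ n ∈ T, ((pre (Int.fract (p * β)) (p * y n) - Int.fract (p * β)) -
          (pre (Int.fract (p * α)) (p * y n) - Int.fract (p * α)))| ≤ 1 / p * R := by
      rw [abs_mul, abs_of_pos (by positivity)]
      exact mul_le_mul_of_nonneg_left h2 (by positivity)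
    linarith
  have hx1 : α ≤ 1 := h1.trans h2
  have hy0 : 0 ≤ β := h0.trans h1
  -- the neighbours in the grid
  have hnb : ∀ x : ℝ, 0 ≤ x → x ≤ 1 → ∃ a b : ℕ, a ≤ p * 2 ^ K ∧ b ≤ p * 2 ^ K ∧ (a : ℝ) / (p * 2 ^ K) ≤ x ∧ x ≤ (b : ℝ) / (p * 2 ^ K) ∧
      x - (a : ℝ) / (p * 2 ^ K) ≤ 1 / (p * 2 ^ K) ∧ (b : ℝ) / (p * 2 ^ K) - x ≤ 1 / (p * 2 ^ K) := by
    intro x hx0 hx1
    have hz0 : 0 ≤ x * (p * 2 ^ K) := by positivity
    have hz1 : x * (p * 2 ^ K) ≤ ((p * 2 ^ K : ℕ) : ℝ) := by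
      push_cast
      nlinarith
    refine ⟨⌊x * (p * 2 ^ K)⌋₊, ⌈x * (p * 2 ^ K)⌉₊, ?_, ?_, ?_, ?_, ?_, ?_⟩
    · exact_mod_cast (Nat.floor_le hz0).trans hz1
    · exact Nat.ceil_le.2 hz1
    · rw [div_le_iff₀ hM0]
      exact Nat.floor_le hz0
    · rw [le_div_iff₀ hM0]
      exact Nat.le_ceil _
    · have := Nat.lt_floor_add_one (x * (p * 2 ^ K))
      rw [sub_le_iff_le_add, ← add_div, le_div_iff₀ hM0]
      linarith
    · have := Nat.ceil_lt_add_one hz0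
      rw [sub_le_iff_le_add, div_le_iff₀ hM0, add_mul, div_mul_cancel₀ _ hM0.ne']
      linarith
  obtain ⟨a₁, a₂, ha₁, ha₂, l1, l2, l3, l4⟩ := hnb α h0 hx1
  obtain ⟨b₁, b₂, hb₁, hb₂, m1, m2, m3, m4⟩ := hnb β hy0 h2
  have hup : ∀ {x z : ℝ}, x ≤ z → ZT y T x ≤ ZT y T z + N₀ * (z - x) := by
    intro x z hxz
    have h3 : ZT y T x ≤ ZT y T z + T.card * (z - x) := by
      unfold ZT
      rw [← nsmul_eq_mul, ← sum_const, ← sum_add_distrib]
      refine sum_le_sum fun n _ => ?_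
      have := pre_mono hxz (y n)
      linarith
    have h4 : (T.card : ℝ) * (z - x) ≤ N₀ * (z - x) := mul_le_mul_of_nonneg_right hN (by linarith)
    linarith
  have u1 := hup m2
  have u2 := hup l1
  have u3 := hup m1
  have u4 := hup l2
  have g1 := hgrid a₁ b₂ ha₁ hb₂
  have g2 := hgrid a₂ b₁ ha₂ hb₁
  have e1 : N₀ * ((b₂ : ℝ) / (p * 2 ^ K) - β) ≤ N₀ * (1 / (p * 2 ^ K)) := mul_le_mul_of_nonneg_left m4 hN0
  have e2 : N₀ * (α - (a₁ : ℝ) / (p * 2 ^ K)) ≤ N₀ * (1 / (p * 2 ^ K)) := mul_le_mul_of_nonneg_left l3 hN0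
  have e3 : N₀ * (β - (b₁ : ℝ) / (p * 2 ^ K)) ≤ N₀ * (1 / (p * 2 ^ K)) := mul_le_mul_of_nonneg_left m3 hN0
  have e4 : N₀ * ((a₂ : ℝ) / (p * 2 ^ K) - α) ≤ N₀ * (1 / (p * 2 ^ K)) := mul_le_mul_of_nonneg_left l4 hN0
  have e5 : 2 * N₀ / (p * 2 ^ K) = N₀ * (1 / (p * 2 ^ K)) + N₀ * (1 / (p * 2 ^ K)) := by ring
  rw [abs_le] at g1 g2 ⊢
  constructor
  · linarith [g2.1]
  · linarith [g1.2]

theorem class_card {Q : ℕ} (hQ : 1 ≤ Q) {e : ℕ} (he : e < Q) {n₁ n₂ : ℕ} (hn : n₁ ≤ n₂) :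
    ((((Ico n₁ n₂).filter fun n => n % Q = e).card : ℕ) : ℝ) ≤ ((n₂ : ℝ) - n₁) / Q + 1 := by
  have hQ0 : (0 : ℚ) < Q := by exact_mod_cast hQ
  have h1 := Nat.Ico_filter_modEq_card n₁ n₂ (show 0 < Q by omega) e
  have h2 : ((Ico n₁ n₂).filter fun n => n ≡ e [MOD Q]) = (Ico n₁ n₂).filter fun n => n % Q = e := by
    refine filter_congr fun n _ => ?_
    show n % Q = e % Q ↔ n % Q = e
    rw [Nat.mod_eq_of_lt he]
  rw [h2] at h1
  have h3 : ((((Ico n₁ n₂).filter fun n => n % Q = e).card : ℕ) : ℚ) ≤ ((n₂ : ℚ) - n₁) / Q + 1 := by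
    have h4 : ((((Ico n₁ n₂).filter fun n => n % Q = e).card : ℤ) : ℚ) ≤ ((n₂ : ℚ) - n₁) / Q + 1 := by
      rw [h1]
      push_cast
      refine max_le ?_ ?_
      · have a1 := Int.ceil_lt_add_one (((n₂ : ℚ) - e) / Q)
        have a2 := Int.le_ceil (((n₁ : ℚ) - e) / Q)
        have a3 : ((n₂ : ℚ) - n₁) / Q = ((n₂ : ℚ) - e) / Q - ((n₁ : ℚ) - e) / Q := by ring
        rw [a3]
        linarith
      · have a1 : (n₁ : ℚ) ≤ n₂ := by exact_mod_cast hn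
        have a2 : 0 ≤ ((n₂ : ℚ) - n₁) / Q := div_nonneg (by linarith) hQ0.le
        linarith
    exact_mod_cast h4
  have h4 : ((((((Ico n₁ n₂).filter fun n => n % Q = e).card : ℕ) : ℚ)) : ℝ) ≤ ((((n₂ : ℚ) - n₁) / Q + 1 : ℚ) : ℝ) := by
    exact_mod_cast h3
  push_cast at h4
  exact h4

/-- DI1 (here `y n = t ^ n x` with `t ^ r = p / q`) -/
theorem disc_rat {p q r : ℕ} (hq : 1 ≤ q) (hqp : q < p) (hr : 1 ≤ r) {y : ℕ → ℝ} (hy : ∀ n, p * y n = q * y (n + r)) {a Q K : ℕ}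
    (ha : 1 ≤ a) (hQ : 1 ≤ Q) (haQ : a ∣ Q) (hrQ : r ∣ Q) (hK : 1 ≤ K) {n₁ n₂ : ℕ} (hn : n₁ ≤ n₂)
    {E : ℝ} (hE : 1 ≤ E) (h : ∀ e < Q, ∀ t ∈ Ib p K, |∑ n ∈ Finset.Ico n₁ n₂ with n % Q = e, fb p t (y n)| ≤ E)
    {α γ : ℝ} (h0 : 0 ≤ α) (h1 : α ≤ γ) (h2 : γ ≤ 1) :
    |(((Finset.Ico n₁ n₂).filter fun n : ℕ => a ∣ n ∧ α ≤ Int.fract (y n) ∧ Int.fract (y n) < γ).card : ℝ) -
      (((Finset.Ico n₁ n₂).filter fun n : ℕ => a ∣ n).card : ℝ) * (γ - α)| ≤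
      40 * p ^ 3 * Q * K * E + 4 * ((n₂ : ℝ) - n₁) * (1 / 2) ^ K := by
  have hp : 0 < p := by omega
  have hp1 : (1 : ℝ) ≤ p := by exact_mod_cast hp
  have hp0 : (0 : ℝ) < p := by linarith
  have hQ1 : (1 : ℝ) ≤ Q := by exact_mod_cast hQ
  have hQ0 : (0 : ℝ) < Q := by linarith
  have hK1 : (1 : ℝ) ≤ K := by exact_mod_cast hK
  have hrQ' : r ≤ Q := Nat.le_of_dvd hQ hrQ
  have hnn : (n₁ : ℝ) ≤ n₂ := by exact_mod_cast hn
  have hqp1 : (q : ℝ) + 1 ≤ p := by exact_mod_cast hqp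
  have hq0 : (0 : ℝ) < q := by exact_mod_cast hq
  set T : ℕ → Finset ℕ := fun e => (Ico n₁ n₂).filter fun n => n % Q = e with hT
  set N₀ : ℝ := ((n₂ : ℝ) - n₁) / Q + 1 with hN₀
  have hcard : ∀ e < Q, ((T e).card : ℝ) ≤ N₀ := fun e he => class_card hQ he hn
  have hN₀0 : 0 ≤ N₀ := by
    have := div_nonneg (sub_nonneg.2 hnn) hQ0.le
    linarith
  -- the best bound
  set Z : Set ℝ := {s | ∃ e < Q, ∃ α β : ℝ, 0 ≤ α ∧ α ≤ β ∧ β ≤ 1 ∧ s = |ZT y (T e) β - ZT y (T e) α|} with hZ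
  have hbdd : BddAbove Z := by
    refine ⟨N₀, ?_⟩
    rintro s ⟨e, he, α, β, h0, h1, h2, rfl⟩
    exact (ZT_card y (T e) h0 (h1.trans h2) (h0.trans h1) h2).trans (hcard e he)
  have hne : Z.Nonempty := ⟨_, 0, by omega, 0, 1, le_rfl, zero_le_one, le_rfl, rfl⟩
  have hD : ∀ e < Q, ∀ α β : ℝ, 0 ≤ α → α ≤ 1 → 0 ≤ β → β ≤ 1 → |ZT y (T e) β - ZT y (T e) α| ≤ sSup Z := by
    intro e he α β h0 h1 h2 h3
    rcases le_total α β with h4 | h4
    · exact le_csSup hbdd ⟨e, he, α, β, h0, h4, h3, rfl⟩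
    · rw [abs_sub_comm]
      exact le_csSup hbdd ⟨e, he, β, α, h2, h4, h1, rfl⟩
  have hmain : sSup Z ≤ 2 * ((p + K) * (p * E)) + 1 / p * (q * (sSup Z + 2)) + 2 * N₀ / (p * 2 ^ K) := by
    refine csSup_le hne ?_
    rintro s ⟨e, he, α, β, h0, h1, h2, rfl⟩
    refine improve_T hp (fun b hb => grid_T hp hK hb (by linarith) (fun t ht => h e he t ht)) ?_ (hcard e he) h0 h1 h2
    intro f g hf0 hf1 hg0 hg1
    exact step_T hq hrQ' he hy hn (fun α β h0 h1 h2 h3 => hD _ (Nat.mod_lt _ (by omega)) α β h0 h1 h2 h3) hf0 hf1 hg0 hg1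
  have hD0 : 0 ≤ sSup Z := (abs_nonneg _).trans (hD 0 (by omega) 0 1 le_rfl zero_le_one zero_le_one le_rfl)
  have hbound : sSup Z ≤ 2 * p ^ 2 * (p + K) * E + 2 * p + 2 * N₀ / 2 ^ K := by
    have e1 : 1 / (p : ℝ) * (q * (sSup Z + 2)) = q / p * (sSup Z + 2) := by ring
    rw [e1] at hmain
    have e2 : (q : ℝ) / p ≤ 1 - 1 / p := by
      rw [div_le_iff₀ hp0, sub_mul, one_div_mul_cancel hp0.ne']
      linarith
    have e3 : (q : ℝ) / p * (sSup Z + 2) ≤ (1 - 1 / p) * (sSup Z + 2) := mul_le_mul_of_nonneg_right e2 (by linarith)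
    have e4 : 1 / (p : ℝ) * sSup Z ≤ 2 * ((p + K) * (p * E)) + 2 + 2 * N₀ / (p * 2 ^ K) := by
      have e5 : 0 ≤ 1 / (p : ℝ) := by positivity
      nlinarith
    have e5 : (p : ℝ) * (1 / (p : ℝ) * sSup Z) ≤ p * (2 * ((p + K) * (p * E)) + 2 + 2 * N₀ / (p * 2 ^ K)) :=
      mul_le_mul_of_nonneg_left e4 hp0.le
    have e6 : (p : ℝ) * (1 / (p : ℝ) * sSup Z) = sSup Z := by field_simp
    have e7 : (p : ℝ) * (2 * ((p + K) * (p * E)) + 2 + 2 * N₀ / (p * 2 ^ K)) =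
        2 * p ^ 2 * (p + K) * E + 2 * p + 2 * N₀ / 2 ^ K := by
      field_simp
    rw [e6, e7] at e5
    exact e5
  -- the sum over the classes
  have hcount : (((Ico n₁ n₂).filter fun n : ℕ => a ∣ n ∧ α ≤ Int.fract (y n) ∧ Int.fract (y n) < γ).card : ℝ) -
      (((Ico n₁ n₂).filter fun n : ℕ => a ∣ n).card : ℝ) * (γ - α) =
      ∑ e ∈ range Q, ∑ n ∈ ((Ico n₁ n₂).filter fun n : ℕ => a ∣ n) with n % Q = e, ((pre γ (y n) - γ) - (pre α (y n) - α)) := by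
    rw [sum_fiberwise_of_maps_to (s := (Ico n₁ n₂).filter fun n : ℕ => a ∣ n) (t := range Q) (g := fun n => n % Q)
      (fun n _ => mem_range.2 (Nat.mod_lt _ (by omega)))]
    have e1 : ∀ n ∈ (Ico n₁ n₂).filter (fun n : ℕ => a ∣ n), (pre γ (y n) - γ) - (pre α (y n) - α) =
        (if α ≤ Int.fract (y n) ∧ Int.fract (y n) < γ then 1 else 0) - (γ - α) := by
      intro n _
      unfold pre
      by_cases h2 : Int.fract (y n) < α
      · rw [if_pos (h2.trans_le h1), if_pos h2, if_neg (by intro h3; linarith [h3.1])]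
        ring
      · by_cases h3 : Int.fract (y n) < γ
        · rw [if_pos h3, if_neg h2, if_pos ⟨not_lt.1 h2, h3⟩]
          ring
        · rw [if_neg h3, if_neg h2, if_neg (fun h4 => h3 h4.2)]
          ring
    rw [sum_congr rfl e1, sum_sub_distrib, sum_const, nsmul_eq_mul, sum_boole, filter_filter]
  rw [hcount]
  refine (abs_sum_le_sum_abs _ _).trans ?_
  have hterm : ∀ e ∈ range Q, |∑ n ∈ ((Ico n₁ n₂).filter fun n : ℕ => a ∣ n) with n % Q = e, ((pre γ (y n) - γ) - (pre α (y n) - α))| ≤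
      sSup Z := by
    intro e he
    have he' := mem_range.1 he
    by_cases hae : a ∣ e
    · have e1 : (((Ico n₁ n₂).filter fun n : ℕ => a ∣ n).filter fun n => n % Q = e) = T e := by
        rw [filter_filter]
        refine filter_congr fun n _ => ?_
        constructor
        · exact fun h => h.2
        · intro h
          refine ⟨?_, h⟩
          rw [← Nat.div_add_mod n Q, h]
          exact dvd_add (haQ.mul_right _) hae
      rw [e1]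
      have e2 := hD e he' α γ h0 (h1.trans h2) (h0.trans h1) h2
      unfold ZT at e2
      rw [← sum_sub_distrib] at e2
      exact e2
    · have e1 : (((Ico n₁ n₂).filter fun n : ℕ => a ∣ n).filter fun n => n % Q = e) = ∅ := by
        rw [filter_filter, filter_eq_empty_iff]
        rintro n _ ⟨h3, h4⟩
        apply hae
        rw [← h4]
        exact (Nat.dvd_mod_iff haQ).2 h3
      rw [e1, sum_empty, abs_zero]
      exact hD0
  refine (sum_le_sum hterm).trans ?_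
  rw [sum_const, card_range, nsmul_eq_mul]
  have f1 : (Q : ℝ) * sSup Z ≤ Q * (2 * p ^ 2 * (p + K) * E + 2 * p + 2 * N₀ / 2 ^ K) := mul_le_mul_of_nonneg_left hbound hQ0.le
  refine f1.trans ?_
  have f2 : (Q : ℝ) * (2 * p ^ 2 * (p + K) * E + 2 * p + 2 * N₀ / 2 ^ K) =
      Q * (2 * p ^ 2 * (p + K) * E + 2 * p) + 2 * ((n₂ : ℝ) - n₁) * (1 / 2) ^ K + 2 * Q * (1 / 2) ^ K := by
    rw [hN₀, one_div, inv_pow]
    field_simp
    ring
  rw [f2]
  have f3 : (1 / 2 : ℝ) ^ K ≤ 1 := pow_le_one₀ (by norm_num) (by norm_num)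
  have f4 : 2 * (Q : ℝ) * (1 / 2) ^ K ≤ 2 * Q := by nlinarith
  have f5 : 0 ≤ 2 * ((n₂ : ℝ) - n₁) * (1 / 2) ^ K := by
    have : (0 : ℝ) ≤ (n₂ : ℝ) - n₁ := by linarith
    positivity
  have p2 : (1 : ℝ) ≤ (p : ℝ) ^ 2 := one_le_pow₀ hp1
  have p3 : (p : ℝ) ^ 2 ≤ (p : ℝ) ^ 3 := pow_le_pow_right₀ hp1 (by norm_num)
  have p1 : (p : ℝ) ≤ (p : ℝ) ^ 3 := by
    calc (p : ℝ) = (p : ℝ) ^ 1 := (pow_one _).symm
      _ ≤ (p : ℝ) ^ 3 := pow_le_pow_right₀ hp1 (by norm_num)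
  have hKE : (1 : ℝ) ≤ K * E := by nlinarith
  have hKE1 : E ≤ K * E := by nlinarith
  have g1 : (p : ℝ) ^ 3 * E ≤ (p : ℝ) ^ 3 * (K * E) := mul_le_mul_of_nonneg_left hKE1 (by positivity)
  have g2 : (p : ℝ) ^ 2 * (K * E) ≤ (p : ℝ) ^ 3 * (K * E) := mul_le_mul_of_nonneg_right p3 (by linarith)
  have g3 : (p : ℝ) ≤ (p : ℝ) ^ 3 * (K * E) := by
    calc (p : ℝ) ≤ (p : ℝ) ^ 3 * 1 := by rw [mul_one]; exact p1
      _ ≤ (p : ℝ) ^ 3 * (K * E) := mul_le_mul_of_nonneg_left hKE (by positivity)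
  have g4 : (1 : ℝ) ≤ (p : ℝ) ^ 3 * (K * E) := by linarith
  have g5 : 2 * (p : ℝ) ^ 2 * (p + K) * E + 2 * p + 2 ≤ 8 * ((p : ℝ) ^ 3 * (K * E)) := by
    have : 2 * (p : ℝ) ^ 2 * (p + K) * E = 2 * ((p : ℝ) ^ 3 * E) + 2 * ((p : ℝ) ^ 2 * (K * E)) := by ring
    rw [this]
    linarith
  have g6 : (Q : ℝ) * (2 * (p : ℝ) ^ 2 * (p + K) * E + 2 * p + 2) ≤ Q * (8 * ((p : ℝ) ^ 3 * (K * E))) :=
    mul_le_mul_of_nonneg_left g5 hQ0.le
  have g7 : 0 ≤ (Q : ℝ) * ((p : ℝ) ^ 3 * (K * E)) := by positivity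
  have g8 : 40 * (p : ℝ) ^ 3 * Q * K * E = 40 * (Q * ((p : ℝ) ^ 3 * (K * E))) := by ring
  rw [g8]
  nlinarith

end Pool.Agent.Helper78.LD4
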