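import Pool.Agent.Helper41.LD.Defs

/-!
# Rational bases: from the functions of mean zero over the first digit to the discrepancy
-/

set_option autoImplicit false

namespace Pool.Agent.Helper78.LD4

open Finset
open Pool.Agent.Helper41.LD (haar ind DiscLe)

/-- the first digit of `t` modulo one, in base `p` -/
noncomputable def dig (p : ℕ) (t : ℝ) : ℕ := ⌊(p : ℝ) * Int.fract t⌋₊

/-- an orthogonal basis of the functions of mean zero of the first digit -/
noncomputable def hel (p a d : ℕ) : ℝ := if d < a then 1 / p else if d = a then -(a / p) else 0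

/-- centred indicator of a first digit -/
noncomputable def wj (p j : ℕ) (t : ℝ) : ℝ := (if dig p t = j then 1 else 0) - 1 / p

/-- indicator of `[0, β)` modulo one -/
noncomputable def pre (β t : ℝ) : ℝ := if Int.fract t < β then 1 else 0

/-- indicator of `[0, c / 2 ^ K)` modulo one -/
noncomputable def pk (K c : ℕ) (t : ℝ) : ℝ := if (2 : ℝ) ^ K * Int.fract t < c then 1 else 0

/-! ### Digits -/

theorem fract_eq {p : ℕ} (hp : 0 < p) (t : ℝ) :
    Int.fract t = ((dig p t : ℝ) + Int.fract ((p : ℝ) * t)) / p ∧ dig p t < p := by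
  have hp0 : (0 : ℝ) < p := by exact_mod_cast hp
  have h1 : (p : ℝ) * t = p * Int.fract t + ((p * ⌊t⌋ : ℤ) : ℝ) := by
    push_cast
    rw [← mul_add, add_comm, Int.floor_add_fract]
  have h2 : Int.fract ((p : ℝ) * t) = Int.fract ((p : ℝ) * Int.fract t) := by
    rw [h1, Int.fract_add_intCast]
  have h3 : 0 ≤ (p : ℝ) * Int.fract t := mul_nonneg hp0.le (Int.fract_nonneg t)
  have h4 : ((dig p t : ℕ) : ℝ) = (⌊(p : ℝ) * Int.fract t⌋ : ℝ) := by
    unfold dig
    rw [← natCast_floor_eq_intCast_floor h3]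
  refine ⟨?_, ?_⟩
  · rw [h2, h4, Int.floor_add_fract]
    field_simp
  · unfold dig
    rw [Nat.floor_lt h3]
    have := Int.fract_lt_one t
    nlinarith

/-- one step in base `p` -/
theorem pre_eq {p : ℕ} (hp : 0 < p) (β t : ℝ) :
    pre β t = if (dig p t : ℝ) + Int.fract ((p : ℝ) * t) < p * β then 1 else 0 := by
  have hp0 : (0 : ℝ) < p := by exact_mod_cast hp
  unfold pre
  congr 1
  rw [(fract_eq hp t).1, div_lt_iff₀ hp0, mul_comm β]

/-- the number of the digits `j` with `j + z < x` -/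
theorem sum_digits {p : ℕ} {x z : ℝ} (hx0 : 0 ≤ x) (hxp : x ≤ p) (hz0 : 0 ≤ z) (hz1 : z < 1) :
    ∑ j ∈ range p, (if (j : ℝ) + z < x then (1 : ℝ) else 0) = ⌊x⌋₊ + (if z < Int.fract x then 1 else 0) := by
  have hm : ((⌊x⌋₊ : ℕ) : ℝ) + Int.fract x = x := by
    rw [natCast_floor_eq_intCast_floor hx0, Int.floor_add_fract]
  have hf0 := Int.fract_nonneg x
  have hf1 := Int.fract_lt_one x
  have h1 : ∀ j ∈ range p, (if (j : ℝ) + z < x then (1 : ℝ) else 0) =
      (if j < ⌊x⌋₊ then 1 else 0) + (if j = ⌊x⌋₊ then (if z < Int.fract x then 1 else 0) else 0) := by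
    intro j _
    rcases lt_trichotomy j ⌊x⌋₊ with h | h | h
    · have h2 : (j : ℝ) + 1 ≤ ⌊x⌋₊ := by exact_mod_cast h
      rw [if_pos (by linarith), if_pos h, if_neg h.ne, add_zero]
    · rw [if_neg (show ¬ j < ⌊x⌋₊ by omega), if_pos h, zero_add]
      have h2 : ((j : ℝ) + z < x) ↔ z < Int.fract x := by
        rw [h]
        constructor <;> intro h3 <;> linarith
      by_cases h3 : z < Int.fract x
      · rw [if_pos (h2.2 h3), if_pos h3]
      · rw [if_neg (fun h4 => h3 (h2.1 h4)), if_neg h3]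
    · have h2 : (⌊x⌋₊ : ℝ) + 1 ≤ j := by exact_mod_cast h
      rw [if_neg (by linarith), if_neg (by omega), if_neg (by omega), add_zero]
  rw [sum_congr rfl h1, sum_add_distrib]
  congr 1
  · have hle : ⌊x⌋₊ ≤ p := by
      have := Nat.floor_le hx0
      have h3 : ((⌊x⌋₊ : ℕ) : ℝ) ≤ p := this.trans hxp
      exact_mod_cast h3
    rw [sum_boole]
    congr 1
    have : (range p).filter (fun j => j < ⌊x⌋₊) = range ⌊x⌋₊ := by
      ext j
      simp only [mem_filter, mem_range]
      omega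
    rw [this, card_range]
  · rw [sum_ite_eq' (range p)]
    by_cases h : ⌊x⌋₊ < p
    · rw [if_pos (mem_range.2 h)]
    · rw [if_neg (by simpa using h)]
      have h3 : (p : ℝ) ≤ ⌊x⌋₊ := by exact_mod_cast not_lt.1 h
      rw [if_neg (by linarith)]

/-- the function with zero mean over the first digit of a prefix interval -/
noncomputable def G (p : ℕ) (β t : ℝ) : ℝ :=
  ∑ j ∈ range p, wj p j t * (if (j : ℝ) + Int.fract ((p : ℝ) * t) < p * β then 1 else 0)

theorem pre_sub {p : ℕ} (hp : 0 < p) {β : ℝ} (h0 : 0 ≤ β) (h1 : β ≤ 1) (t : ℝ) :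
    pre β t - β = G p β t + (1 / p) * (pre (Int.fract (p * β)) (p * t) - Int.fract (p * β)) := by
  have hp0 : (0 : ℝ) < p := by exact_mod_cast hp
  have hx0 : 0 ≤ (p : ℝ) * β := by positivity
  have hxp : (p : ℝ) * β ≤ p := by nlinarith
  have h2 := sum_digits hx0 hxp (Int.fract_nonneg ((p : ℝ) * t)) (Int.fract_lt_one _)
  have h3 : G p β t = pre β t - (1 / p) * ∑ j ∈ range p, (if (j : ℝ) + Int.fract ((p : ℝ) * t) < p * β then (1 : ℝ) else 0) := by
    unfold G wj
    simp only [sub_mul]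
    rw [sum_sub_distrib, ← mul_sum]
    congr 1
    simp only [ite_mul, one_mul, zero_mul]
    rw [sum_ite_eq (range p), if_pos (mem_range.2 (fract_eq hp t).2), ← pre_eq hp]
  rw [h3, h2]
  have hm : ((⌊(p : ℝ) * β⌋₊ : ℕ) : ℝ) + Int.fract ((p : ℝ) * β) = p * β := by
    rw [natCast_floor_eq_intCast_floor hx0, Int.floor_add_fract]
  have h4 : pre (Int.fract (p * β)) (p * t) = if Int.fract ((p : ℝ) * t) < Int.fract ((p : ℝ) * β) then 1 else 0 := rfl
  rw [h4]
  have h5 : β = (((⌊(p : ℝ) * β⌋₊ : ℕ) : ℝ) + Int.fract ((p : ℝ) * β)) / p := by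
    rw [hm]
    field_simp
  generalize (if Int.fract ((p : ℝ) * t) < Int.fract ((p : ℝ) * β) then (1 : ℝ) else 0) = e at *
  generalize pre β t = w at *
  generalize ((⌊(p : ℝ) * β⌋₊ : ℕ) : ℝ) = m at *
  generalize Int.fract ((p : ℝ) * β) = f at *
  rw [h5]
  field_simp
  ring

/-- `q` intervals -/
theorem pre_mul {q : ℕ} (hq : 0 < q) {f : ℝ} (hf0 : 0 ≤ f) (hf1 : f < 1) (u : ℝ) :
    pre f (q * u) = ∑ i ∈ range q, (pre ((i + f) / q) u - pre (i / q) u) := by
  have hq0 : (0 : ℝ) < q := by exact_mod_cast hq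
  obtain ⟨h1, h2⟩ := fract_eq hq u
  set d := dig q u with hd
  set z := Int.fract ((q : ℝ) * u) with hz
  have hz0 : 0 ≤ z := Int.fract_nonneg _
  have hz1 : z < 1 := Int.fract_lt_one _
  have h3 : ∀ i ∈ range q, (pre ((i + f) / q) u - pre (i / q) u) = if i = d then (if z < f then 1 else 0) else 0 := by
    intro i _
    rw [pre_eq hq, pre_eq hq, ← hd, ← hz]
    have e1 : (q : ℝ) * ((i + f) / q) = i + f := by field_simp
    have e2 : (q : ℝ) * ((i : ℝ) / q) = i := by field_simp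
    rw [e1, e2]
    rcases lt_trichotomy i d with h | h | h
    · have h4 : (i : ℝ) + 1 ≤ d := by exact_mod_cast h
      rw [if_neg (by linarith), if_neg (by linarith), if_neg h.ne, sub_zero]
    · rw [if_pos h, h]
      by_cases h5 : z < f
      · rw [if_pos (by linarith), if_neg (by linarith), if_pos h5, sub_zero]
      · rw [if_neg (by linarith), if_neg (by linarith), if_neg h5, sub_zero]
    · have h4 : (d : ℝ) + 1 ≤ i := by exact_mod_cast h
      rw [if_pos (by linarith), if_pos (by linarith), if_neg h.ne', sub_self]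
  rw [sum_congr rfl h3, sum_ite_eq' (range q), if_pos (mem_range.2 h2)]
  rfl

/-! ### Dyadic prefixes -/

theorem pk_double (K m : ℕ) (t : ℝ) : pk (K + 1) (2 * m) t = pk K m t := by
  unfold pk
  have : ((2 : ℝ) ^ (K + 1) * Int.fract t < ((2 * m : ℕ) : ℝ)) ↔ ((2 : ℝ) ^ K * Int.fract t < (m : ℝ)) := by
    push_cast
    rw [pow_succ]
    constructor <;> intro h <;> linarith
  simp only [this]

theorem pk_odd (K m : ℕ) (t : ℝ) : pk (K + 1) (2 * m + 1) t = (pk K m t + pk K (m + 1) t) / 2 + haar K m t / 2 := by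
  unfold pk haar ind
  set x := (2 : ℝ) ^ K * Int.fract t with hx
  have e1 : (2 : ℝ) ^ (K + 1) * Int.fract t = 2 * x := by rw [hx, pow_succ]; ring
  rw [e1]
  push_cast
  have f1 : (⌊2 * x⌋ = 2 * (m : ℤ)) ↔ ((2 * m : ℝ) ≤ 2 * x ∧ 2 * x < 2 * m + 1) := by
    rw [Int.floor_eq_iff]
    push_cast
    rfl
  have f2 : (⌊2 * x⌋ = 2 * (m : ℤ) + 1) ↔ ((2 * m + 1 : ℝ) ≤ 2 * x ∧ 2 * x < 2 * m + 1 + 1) := by
    rw [Int.floor_eq_iff]
    push_cast
    rfl
  simp only [f1, f2]
  by_cases h1 : x < m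
  · rw [if_pos (by linarith), if_pos h1, if_pos (by linarith), if_neg (by intro h; linarith [h.1]), if_neg (by intro h; linarith [h.1])]
    norm_num
  · push Not at h1
    by_cases h2 : 2 * x < 2 * m + 1
    · rw [if_pos h2, if_neg (by linarith), if_pos (by linarith), if_pos ⟨by linarith, h2⟩, if_neg (by intro h; linarith [h.1])]
      norm_num
    · push Not at h2
      by_cases h3 : x < m + 1
      · rw [if_neg (by linarith), if_neg (by linarith), if_pos (by linarith), if_neg (by intro h; linarith [h.2]), if_pos ⟨h2, by linarith⟩]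
        norm_num
      · push Not at h3
        rw [if_neg (by linarith), if_neg (by linarith), if_neg (by linarith), if_neg (by intro h; linarith [h.2]),
          if_neg (by intro h; linarith [h.2])]
        norm_num

theorem prefix_bound {N : ℕ} {w t : ℕ → ℝ} {S : ℝ} (hS0 : 0 ≤ S) (K : ℕ)
    (h : ∀ k < K, ∀ i < 2 ^ k, |∑ n ∈ range N, w n * haar k i (t n)| ≤ S) :
    ∀ c : ℕ, c ≤ 2 ^ K → |∑ n ∈ range N, w n * (pk K c (t n) - c / 2 ^ K)| ≤ K * S / 2 := by
  induction K with
  | zero =>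
    intro c hc
    have h1 : ∀ n ∈ range N, w n * (pk 0 c (t n) - c / 2 ^ 0) = 0 := by
      intro n _
      have h2 : pk 0 c (t n) = c := by
        unfold pk
        have h3 := Int.fract_nonneg (t n)
        have h4 := Int.fract_lt_one (t n)
        interval_cases c
        · rw [if_neg (by push_cast; linarith)]
          simp
        · rw [if_pos (by push_cast; linarith)]
          simp
      rw [h2]
      simp
    rw [sum_eq_zero h1]
    simp
  | succ K ih =>
    intro c hc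
    have ih' := ih (fun k hk i hi => h k (by omega) i hi)
    rcases Nat.even_or_odd' c with ⟨m, hm | hm⟩
    · have h1 : ∀ n ∈ range N, w n * (pk (K + 1) c (t n) - c / 2 ^ (K + 1)) = w n * (pk K m (t n) - m / 2 ^ K) := by
        intro n _
        rw [hm, pk_double]
        push_cast
        rw [pow_succ]
        field_simp
      rw [sum_congr rfl h1]
      refine (ih' m (by rw [pow_succ] at hc; omega)).trans ?_
      push_cast
      linarith
    · have h1 : ∀ n ∈ range N, w n * (pk (K + 1) c (t n) - c / 2 ^ (K + 1)) =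
          (w n * (pk K m (t n) - m / 2 ^ K)) / 2 + (w n * (pk K (m + 1) (t n) - (m + 1 : ℕ) / 2 ^ K)) / 2 +
            (w n * haar K m (t n)) / 2 := by
        intro n _
        rw [hm, pk_odd]
        push_cast
        rw [pow_succ]
        field_simp
        ring
      have hmK : m + 1 ≤ 2 ^ K := by rw [pow_succ] at hc; omega
      rw [sum_congr rfl h1, sum_add_distrib, sum_add_distrib, ← sum_div, ← sum_div, ← sum_div]
      have a1 := ih' m (by omega)
      have a2 := ih' (m + 1) hmK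
      have a3 := h K (by omega) m (by omega)
      refine (abs_add_le _ _).trans ((add_le_add_left (abs_add_le _ _) _).trans ?_)
      rw [abs_div, abs_div, abs_div, abs_of_pos (show (0 : ℝ) < 2 by norm_num)]
      push_cast at a1 a2 a3 ⊢
      linarith

/-! ### The Helmert basis -/

theorem hel_eq (p a d : ℕ) : hel p a d = (if d < a then 1 else if d = a then -(a : ℝ) else 0) / p := by
  unfold hel
  split_ifs <;> ring

theorem hel_term {p : ℕ} (hp : 0 < p) (j d a : ℕ) (ha : 1 ≤ a) :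
    ((p : ℝ) ^ 2 * hel p a j / (a * (a + 1))) * hel p a d =
      (if j < a then 1 else if j = a then -(a : ℝ) else 0) * (if d < a then 1 else if d = a then -(a : ℝ) else 0) /
        (a * (a + 1)) := by
  have hp0 : (0 : ℝ) < p := by exact_mod_cast hp
  have ha0 : (0 : ℝ) < a := by exact_mod_cast ha
  rw [hel_eq, hel_eq]
  generalize (if j < a then (1 : ℝ) else if j = a then -(a : ℝ) else 0) = A
  generalize (if d < a then (1 : ℝ) else if d = a then -(a : ℝ) else 0) = B
  field_simp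

theorem hel_sum {p : ℕ} (hp : 0 < p) (j d m : ℕ) (hm : 1 ≤ m) :
    ∑ a ∈ Ico 1 m, ((p : ℝ) ^ 2 * hel p a j / (a * (a + 1))) * hel p a d =
      if j < m ∧ d < m then (if d = j then 1 else 0) - 1 / (m : ℝ) else 0 := by
  induction m, hm using Nat.le_induction with
  | base =>
    rw [Ico_self, sum_empty]
    by_cases h : j < 1 ∧ d < 1
    · rw [if_pos h, if_pos (by omega)]
      norm_num
    · rw [if_neg h]
  | succ m hm ih =>
    rw [sum_Ico_succ_top hm, ih, hel_term hp j d m hm]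
    have hm0 : (0 : ℝ) < m := by exact_mod_cast hm
    rcases lt_trichotomy j m with hj | hj | hj <;> rcases lt_trichotomy d m with hd | hd | hd
    · rw [if_pos (show j < m ∧ d < m from ⟨hj, hd⟩), if_pos (show j < m + 1 ∧ d < m + 1 by omega), if_pos hj, if_pos hd]
      push_cast
      field_simp
      ring
    · rw [if_neg (show ¬ (j < m ∧ d < m) by omega), if_pos (show j < m + 1 ∧ d < m + 1 by omega), if_pos hj,
        if_neg (show ¬ d < m by omega), if_pos hd, if_neg (show ¬ d = j by omega)]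
      push_cast
      field_simp
      ring
    · rw [if_neg (show ¬ (j < m ∧ d < m) by omega), if_neg (show ¬ (j < m + 1 ∧ d < m + 1) by omega),
        if_neg (show ¬ d < m by omega), if_neg (show ¬ d = m by omega)]
      simp
    · rw [if_neg (show ¬ (j < m ∧ d < m) by omega), if_pos (show j < m + 1 ∧ d < m + 1 by omega),
        if_neg (show ¬ j < m by omega), if_pos hj, if_pos hd, if_neg (show ¬ d = j by omega)]
      push_cast
      field_simp
      ring
    · rw [if_neg (show ¬ (j < m ∧ d < m) by omega), if_pos (show j < m + 1 ∧ d < m + 1 by omega),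
        if_neg (show ¬ j < m by omega), if_pos hj, if_neg (show ¬ d < m by omega), if_pos hd, if_pos (show d = j by omega)]
      push_cast
      field_simp
      ring
    · rw [if_neg (show ¬ (j < m ∧ d < m) by omega), if_neg (show ¬ (j < m + 1 ∧ d < m + 1) by omega),
        if_neg (show ¬ d < m by omega), if_neg (show ¬ d = m by omega)]
      simp
    all_goals
      rw [if_neg (show ¬ (j < m ∧ d < m) by omega), if_neg (show ¬ (j < m + 1 ∧ d < m + 1) by omega),
        if_neg (show ¬ j < m by omega), if_neg (show ¬ j = m by omega)]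
      simp

theorem wj_eq {p : ℕ} (hp : 0 < p) {j : ℕ} (hj : j < p) (t : ℝ) :
    wj p j t = ∑ a ∈ Ico 1 p, ((p : ℝ) ^ 2 * hel p a j / (a * (a + 1))) * hel p a (dig p t) := by
  rw [hel_sum hp _ _ _ hp, if_pos ⟨hj, (fract_eq hp t).2⟩]
  rfl

theorem hel_coeff {p : ℕ} (hp : 0 < p) (j a : ℕ) (ha : 1 ≤ a) :
    |(p : ℝ) ^ 2 * hel p a j / ((a : ℝ) * ((a : ℝ) + 1))| ≤ (p : ℝ) := by
  have hp0 : (0 : ℝ) < p := by exact_mod_cast hp
  have ha0 : (1 : ℝ) ≤ a := by exact_mod_cast ha
  have h1 : |hel p a j| ≤ (a : ℝ) / p := by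
    unfold hel
    split_ifs
    · rw [abs_of_pos (by positivity)]
      gcongr
    · rw [abs_neg, abs_of_pos (by positivity)]
    · rw [abs_zero]; positivity
  rw [abs_div, abs_mul, abs_of_pos (show (0 : ℝ) < (p : ℝ) ^ 2 by positivity), abs_of_pos (show (0 : ℝ) < (a : ℝ) * (a + 1) by positivity),
    div_le_iff₀ (by positivity)]
  calc (p : ℝ) ^ 2 * |hel p a j| ≤ (p : ℝ) ^ 2 * ((a : ℝ) / p) := by gcongr
    _ = (p : ℝ) * a := by field_simp
    _ ≤ (p : ℝ) * ((a : ℝ) * ((a : ℝ) + 1)) := by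
      apply mul_le_mul_of_nonneg_left _ hp0.le
      nlinarith

/-- from the Helmert basis to the single digits -/
theorem wj_bound {p : ℕ} (hp : 0 < p) {N : ℕ} {y x : ℕ → ℝ} {S : ℝ} (hS : 0 ≤ S)
    (h : ∀ a, 1 ≤ a → a < p → |∑ n ∈ range N, hel p a (dig p (y n)) * x n| ≤ S) {j : ℕ} (hj : j < p) :
    |∑ n ∈ range N, wj p j (y n) * x n| ≤ p ^ 2 * S := by
  have hp0 : (0 : ℝ) < p := by exact_mod_cast hp
  have h1 : ∑ n ∈ range N, wj p j (y n) * x n =
      ∑ a ∈ Ico 1 p, ((p : ℝ) ^ 2 * hel p a j / (a * (a + 1))) * ∑ n ∈ range N, hel p a (dig p (y n)) * x n := by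
    simp_rw [mul_sum]
    rw [sum_comm]
    refine sum_congr rfl fun n _ => ?_
    rw [wj_eq hp hj, sum_mul]
    refine sum_congr rfl fun a _ => ?_
    ring
  rw [h1]
  refine (abs_sum_le_sum_abs _ _).trans ?_
  have h2 : ∀ a ∈ Ico 1 p, |((p : ℝ) ^ 2 * hel p a j / (a * (a + 1))) * ∑ n ∈ range N, hel p a (dig p (y n)) * x n| ≤ p * S := by
    intro a ha
    rw [mem_Ico] at ha
    rw [abs_mul]
    exact mul_le_mul (hel_coeff hp j a ha.1) (h a ha.1 ha.2) (abs_nonneg _) hp0.le
  refine (sum_le_sum h2).trans ?_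
  rw [sum_const, Nat.card_Ico, nsmul_eq_mul]
  have h3 : ((p - 1 : ℕ) : ℝ) ≤ p := by exact_mod_cast Nat.sub_le p 1
  have h4 : 0 ≤ (p : ℝ) * S := by positivity
  calc ((p - 1 : ℕ) : ℝ) * (p * S) ≤ p * (p * S) := by gcongr
    _ = p ^ 2 * S := by ring

/-! ### The sums of the functions `G` at the points of the grid -/

theorem G_grid {p : ℕ} (hp : 0 < p) {K b : ℕ} (hb : b ≤ p * 2 ^ K) {N : ℕ} {y : ℕ → ℝ} {S : ℝ} (hS : 0 ≤ S)
    (h0 : ∀ j < p, |∑ n ∈ range N, wj p j (y n)| ≤ S)
    (h1 : ∀ j < p, ∀ k < K, ∀ i < 2 ^ k, |∑ n ∈ range N, wj p j (y n) * haar k i (p * y n)| ≤ S) :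
    |∑ n ∈ range N, G p (b / (p * 2 ^ K)) (y n)| ≤ (p + K) * S := by
  have hp0 : (0 : ℝ) < p := by exact_mod_cast hp
  have h2K : (0 : ℕ) < 2 ^ K := by positivity
  obtain ⟨d, c, hc, hbd⟩ : ∃ d c : ℕ, c < 2 ^ K ∧ b = 2 ^ K * d + c :=
    ⟨b / 2 ^ K, b % 2 ^ K, Nat.mod_lt _ h2K, (Nat.div_add_mod _ _).symm⟩
  have hdp : d ≤ p := by
    by_contra hcon
    push Not at hcon
    have : 2 ^ K * (p + 1) ≤ 2 ^ K * d := Nat.mul_le_mul_left _ hcon
    have e1 : 2 ^ K * (p + 1) = p * 2 ^ K + 2 ^ K := by ring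
    omega
  have hβ : (p : ℝ) * ((b : ℝ) / (p * 2 ^ K)) = d + c / 2 ^ K := by
    rw [hbd]
    push_cast
    field_simp
  have hcell : ∀ (j : ℕ) (t : ℝ), (if (j : ℝ) + Int.fract ((p : ℝ) * t) < p * ((b : ℝ) / (p * 2 ^ K)) then (1 : ℝ) else 0) =
      (if j < d then 1 else 0) + (if j = d then pk K c (p * t) else 0) := by
    intro j t
    rw [hβ]
    have hz0 := Int.fract_nonneg ((p : ℝ) * t)
    have hz1 := Int.fract_lt_one ((p : ℝ) * t)
    have hcK : (c : ℝ) / 2 ^ K < 1 := by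
      rw [div_lt_one (by positivity)]
      exact_mod_cast hc
    have hc0 : (0 : ℝ) ≤ (c : ℝ) / 2 ^ K := by positivity
    rcases lt_trichotomy j d with hj | hj | hj
    · have h3 : (j : ℝ) + 1 ≤ d := by exact_mod_cast hj
      rw [if_pos (by linarith), if_pos hj, if_neg hj.ne, add_zero]
    · rw [if_neg (show ¬ j < d by omega), if_pos hj, zero_add, hj]
      unfold pk
      congr 1
      rw [add_lt_add_iff_left, lt_div_iff₀ (by positivity), mul_comm]
    · have h3 : (d : ℝ) + 1 ≤ j := by exact_mod_cast hj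
      rw [if_neg (by linarith), if_neg (by omega), if_neg (by omega), add_zero]
  have hG : ∑ n ∈ range N, G p (b / (p * 2 ^ K)) (y n) =
      ∑ j ∈ range p, ((if j < d then ∑ n ∈ range N, wj p j (y n) else 0) +
        (if j = d then ∑ n ∈ range N, wj p j (y n) * pk K c (p * y n) else 0)) := by
    unfold G
    rw [sum_comm]
    refine sum_congr rfl fun j _ => ?_
    have h3 : ∀ n ∈ range N, wj p j (y n) * (if (j : ℝ) + Int.fract ((p : ℝ) * y n) < p * ((b : ℝ) / (p * 2 ^ K)) then (1 : ℝ) else 0) =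
        (if j < d then wj p j (y n) else 0) + (if j = d then wj p j (y n) * pk K c (p * y n) else 0) := by
      intro n _
      rw [hcell j (y n)]
      split_ifs <;> ring
    rw [sum_congr rfl h3, sum_add_distrib]
    congr 1
    · split_ifs <;> simp
    · split_ifs <;> simp
  rw [hG, sum_add_distrib]
  have hA : |∑ j ∈ range p, (if j < d then ∑ n ∈ range N, wj p j (y n) else 0)| ≤ d * S := by
    refine (abs_sum_le_sum_abs _ _).trans ?_
    have h3 : ∀ j ∈ range p, |(if j < d then ∑ n ∈ range N, wj p j (y n) else 0)| ≤ if j < d then S else 0 := by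
      intro j hj
      split_ifs
      · exact h0 j (mem_range.1 hj)
      · simp
    refine (sum_le_sum h3).trans ?_
    rw [← sum_filter, sum_const, nsmul_eq_mul]
    have h4 : (((range p).filter fun j => j < d).card : ℝ) ≤ d := by
      have : ((range p).filter fun j => j < d) ⊆ range d := by
        intro j hj
        simp only [mem_filter, mem_range] at hj ⊢
        exact hj.2
      have h5 := card_le_card this
      rw [card_range] at h5
      exact_mod_cast h5
    exact mul_le_mul_of_nonneg_right h4 hS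
  have hB : |∑ j ∈ range p, (if j = d then ∑ n ∈ range N, wj p j (y n) * pk K c (p * y n) else 0)| ≤
      (if d < p then S + K * S / 2 else 0) := by
    rw [sum_ite_eq' (range p)]
    by_cases hd : d < p
    · rw [if_pos (mem_range.2 hd), if_pos hd]
      have h3 := prefix_bound (w := fun n => wj p d (y n)) (t := fun n => (p : ℝ) * y n) hS K (fun k hk i hi => h1 d hd k hk i hi)
        c hc.le
      have h4 : ∑ n ∈ range N, wj p d (y n) * pk K c (p * y n) =
          ∑ n ∈ range N, wj p d (y n) * (pk K c (p * y n) - c / 2 ^ K) + (c / 2 ^ K) * ∑ n ∈ range N, wj p d (y n) := by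
        rw [mul_sum, ← sum_add_distrib]
        refine sum_congr rfl fun n _ => ?_
        ring
      rw [h4]
      refine (abs_add_le _ _).trans ?_
      have h5 : |(c : ℝ) / 2 ^ K * ∑ n ∈ range N, wj p d (y n)| ≤ S := by
        rw [abs_mul, abs_of_nonneg (by positivity)]
        have h6 : (c : ℝ) / 2 ^ K ≤ 1 := by
          rw [div_le_one (by positivity)]
          exact_mod_cast hc.le
        calc (c : ℝ) / 2 ^ K * |∑ n ∈ range N, wj p d (y n)| ≤ 1 * S :=
              mul_le_mul h6 (h0 d hd) (abs_nonneg _) zero_le_one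
          _ = S := one_mul S
      linarith
    · rw [if_neg (by simpa using hd), if_neg hd]
      simp
  refine (abs_add_le _ _).trans ?_
  have hdr : (d : ℝ) ≤ p := by exact_mod_cast hdp
  have hK0 : (0 : ℝ) ≤ K := Nat.cast_nonneg K
  have hKS : 0 ≤ (K : ℝ) * S := mul_nonneg hK0 hS
  by_cases hd : d < p
  · rw [if_pos hd] at hB
    have hd1 : (d : ℝ) + 1 ≤ p := by exact_mod_cast hd
    have : ((d : ℝ) + 1) * S ≤ p * S := mul_le_mul_of_nonneg_right hd1 hS
    nlinarith
  · rw [if_neg hd] at hB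
    have : (d : ℝ) * S ≤ p * S := mul_le_mul_of_nonneg_right hdr hS
    nlinarith

/-! ### The discrepancy -/

/-- the discrepancy function -/
noncomputable def Zs (y : ℕ → ℝ) (N : ℕ) (β : ℝ) : ℝ := ∑ n ∈ range N, (pre β (y n) - β)

theorem pre_mono {α β : ℝ} (h : α ≤ β) (t : ℝ) : pre α t ≤ pre β t := by
  unfold pre
  by_cases h1 : Int.fract t < α
  · rw [if_pos h1, if_pos (h1.trans_le h)]
  · rw [if_neg h1]
    split_ifs <;> norm_num

theorem pre_range (β t : ℝ) : 0 ≤ pre β t ∧ pre β t ≤ 1 := by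
  unfold pre
  split_ifs <;> constructor <;> norm_num

theorem count_eq (y : ℕ → ℝ) (N : ℕ) {α β : ℝ} (h : α ≤ β) :
    (((range N).filter fun j : ℕ => α ≤ Int.fract (y j) ∧ Int.fract (y j) < β).card : ℝ) - N * (β - α) =
      Zs y N β - Zs y N α := by
  unfold Zs
  rw [← sum_sub_distrib, ← sum_boole]
  have h1 : ∀ n ∈ range N, (pre β (y n) - β) - (pre α (y n) - α) =
      (if α ≤ Int.fract (y n) ∧ Int.fract (y n) < β then 1 else 0) - (β - α) := by
    intro n _
    unfold pre
    by_cases h2 : Int.fract (y n) < α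
    · rw [if_pos (h2.trans_le h), if_pos h2, if_neg (by intro h3; linarith [h3.1])]
      ring
    · by_cases h3 : Int.fract (y n) < β
      · rw [if_pos h3, if_neg h2, if_pos ⟨not_lt.1 h2, h3⟩]
        ring
      · rw [if_neg h3, if_neg h2, if_neg (fun h4 => h3 h4.2)]
        ring
  rw [sum_congr rfl h1, sum_sub_distrib, sum_const, card_range, nsmul_eq_mul]

theorem disc_of {y : ℕ → ℝ} {N : ℕ} {E : ℝ} (h : DiscLe y N E) {α β : ℝ} (h0 : 0 ≤ α) (h1 : α ≤ 1) (h2 : 0 ≤ β) (h3 : β ≤ 1) :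
    |Zs y N β - Zs y N α| ≤ E := by
  rcases le_total α β with h4 | h4
  · rw [← count_eq y N h4]
    exact h α β h0 h4 h3
  · rw [abs_sub_comm, ← count_eq y N h4]
    exact h β α h2 h4 h1

/-- one step: the part which is a function of `p y` -/
theorem step_bound {p q : ℕ} (hq : 1 ≤ q) (hp : 0 < p) {y : ℕ → ℝ} (hy : ∀ n, (p : ℝ) * y n = q * y (n + 1)) {N : ℕ} {E : ℝ}
    (hE : DiscLe y N E) {f g : ℝ} (hf0 : 0 ≤ f) (hf1 : f < 1) (hg0 : 0 ≤ g) (hg1 : g < 1) :
    |∑ n ∈ range N, ((pre f (p * y n) - f) - (pre g (p * y n) - g))| ≤ q * (E + 1) := by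
  have hq0 : (0 : ℝ) < q := by exact_mod_cast hq
  have h1 : ∀ n ∈ range N, ((pre f (p * y n) - f) - (pre g (p * y n) - g)) =
      ∑ i ∈ range q, ((pre ((i + f) / q) (y (n + 1)) - (i + f) / q) - (pre ((i + g) / q) (y (n + 1)) - (i + g) / q)) := by
    intro n _
    rw [hy n, pre_mul hq hf0 hf1, pre_mul hq hg0 hg1]
    have h2 : f - g = ∑ i ∈ range q, (((i : ℝ) + f) / q - ((i : ℝ) + g) / q) := by
      have h3 : ∀ i ∈ range q, (((i : ℝ) + f) / q - ((i : ℝ) + g) / q) = (f - g) / q := by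
        intro i _
        rw [← sub_div]
        congr 1
        ring
      rw [sum_congr rfl h3, sum_const, card_range, nsmul_eq_mul]
      field_simp
    have h3 : (∑ i ∈ range q, (pre ((i + f) / q) (y (n + 1)) - pre (i / q) (y (n + 1))) - f) -
        (∑ i ∈ range q, (pre ((i + g) / q) (y (n + 1)) - pre (i / q) (y (n + 1))) - g) =
        (∑ i ∈ range q, (pre ((i + f) / q) (y (n + 1)) - pre (i / q) (y (n + 1))) -
          ∑ i ∈ range q, (pre ((i + g) / q) (y (n + 1)) - pre (i / q) (y (n + 1)))) - (f - g) := by ring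
    rw [h3, h2, ← sum_sub_distrib, ← sum_sub_distrib]
    refine sum_congr rfl fun i _ => ?_
    ring
  rw [sum_congr rfl h1, sum_comm]
  refine (abs_sum_le_sum_abs _ _).trans ?_
  have h2 : ∀ i ∈ range q, |∑ n ∈ range N, ((pre ((i + f) / q) (y (n + 1)) - (i + f) / q) -
      (pre ((i + g) / q) (y (n + 1)) - (i + g) / q))| ≤ E + 1 := by
    intro i hi
    have hiq : (i : ℝ) + 1 ≤ q := by exact_mod_cast mem_range.1 hi
    have hi0 : (0 : ℝ) ≤ i := Nat.cast_nonneg i
    set F : ℕ → ℝ := fun n => (pre ((i + f) / q) (y n) - (i + f) / q) - (pre ((i + g) / q) (y n) - (i + g) / q) with hF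
    have h3 : ∑ n ∈ range N, F (n + 1) = ∑ n ∈ range N, F n + (F N - F 0) := by
      have h4 := sum_range_succ F N
      have h5 := sum_range_succ' F N
      linarith
    have h4 : |F N - F 0| ≤ 1 := by
      simp only [hF]
      rcases le_total f g with hfg | hfg
      · have hle : ((i : ℝ) + f) / q ≤ (i + g) / q := by gcongr
        have a1 := pre_mono hle (y N)
        have a2 := pre_mono hle (y 0)
        have b1 := pre_range ((i + f) / q) (y N)
        have b2 := pre_range ((i + f) / q) (y 0)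
        have b3 := pre_range ((i + g) / q) (y N)
        have b4 := pre_range ((i + g) / q) (y 0)
        rw [abs_le]
        constructor <;> linarith
      · have hle : ((i : ℝ) + g) / q ≤ (i + f) / q := by gcongr
        have a1 := pre_mono hle (y N)
        have a2 := pre_mono hle (y 0)
        have b1 := pre_range ((i + f) / q) (y N)
        have b2 := pre_range ((i + f) / q) (y 0)
        have b3 := pre_range ((i + g) / q) (y N)
        have b4 := pre_range ((i + g) / q) (y 0)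
        rw [abs_le]
        constructor <;> linarith
    have h5 : ∑ n ∈ range N, F n = Zs y N ((i + f) / q) - Zs y N ((i + g) / q) := by
      unfold Zs
      rw [← sum_sub_distrib]
    have h6 : |Zs y N ((i + f) / q) - Zs y N ((i + g) / q)| ≤ E :=
      disc_of hE (by positivity) (by rw [div_le_one hq0]; linarith) (by positivity) (by rw [div_le_one hq0]; linarith)
    show |∑ n ∈ range N, F (n + 1)| ≤ E + 1
    rw [h3, h5]
    exact (abs_add_le _ _).trans (add_le_add h6 h4)
  refine (sum_le_sum h2).trans ?_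
  rw [sum_const, card_range, nsmul_eq_mul]

/-- improvement of a bound of the discrepancy -/
theorem improve {p q : ℕ} (hq : 1 ≤ q) (hqp : q < p) {y : ℕ → ℝ} (hy : ∀ n, (p : ℝ) * y n = q * y (n + 1)) {N K : ℕ}
    {S E : ℝ} (hG : ∀ b ≤ p * 2 ^ K, |∑ n ∈ range N, G p (b / (p * 2 ^ K)) (y n)| ≤ S) (hE : DiscLe y N E) :
    DiscLe y N (2 * S + q / p * (E + 1) + 2 * N / (p * 2 ^ K)) := by
  have hp : 0 < p := by omega
  have hp0 : (0 : ℝ) < p := by exact_mod_cast hp
  have hM0 : (0 : ℝ) < (p : ℝ) * 2 ^ K := by positivity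
  have hN0 : (0 : ℝ) ≤ N := Nat.cast_nonneg N
  -- points of the grid
  have hgrid : ∀ a b : ℕ, a ≤ p * 2 ^ K → b ≤ p * 2 ^ K →
      |Zs y N (b / (p * 2 ^ K)) - Zs y N (a / (p * 2 ^ K))| ≤ 2 * S + q / p * (E + 1) := by
    intro a b ha hb
    have hbnd : ∀ c : ℕ, c ≤ p * 2 ^ K → 0 ≤ (c : ℝ) / (p * 2 ^ K) ∧ (c : ℝ) / (p * 2 ^ K) ≤ 1 := by
      intro c hc
      refine ⟨by positivity, ?_⟩
      rw [div_le_one hM0]
      exact_mod_cast hc
    obtain ⟨ha0, ha1⟩ := hbnd a ha
    obtain ⟨hb0, hb1⟩ := hbnd b hb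
    set α := (a : ℝ) / (p * 2 ^ K) with hα
    set β := (b : ℝ) / (p * 2 ^ K) with hβ
    have h1 : Zs y N β - Zs y N α = (∑ n ∈ range N, G p β (y n) - ∑ n ∈ range N, G p α (y n)) +
        (1 / p) * ∑ n ∈ range N, ((pre (Int.fract (p * β)) (p * y n) - Int.fract (p * β)) -
          (pre (Int.fract (p * α)) (p * y n) - Int.fract (p * α))) := by
      unfold Zs
      rw [← sum_sub_distrib, ← sum_sub_distrib, mul_sum, ← sum_add_distrib]
      refine sum_congr rfl fun n _ => ?_
      rw [pre_sub hp hb0 hb1, pre_sub hp ha0 ha1]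
      ring
    rw [h1]
    have h2 := step_bound hq hp hy hE (Int.fract_nonneg ((p : ℝ) * β)) (Int.fract_lt_one _) (Int.fract_nonneg ((p : ℝ) * α))
      (Int.fract_lt_one _)
    refine (abs_add_le _ _).trans ?_
    have h3 : |∑ n ∈ range N, G p β (y n) - ∑ n ∈ range N, G p α (y n)| ≤ 2 * S := by
      refine (abs_sub _ _).trans ?_
      have := hG b hb
      have := hG a ha
      linarith
    have h4 : |(1 / (p : ℝ)) * ∑ n ∈ range N, ((pre (Int.fract (p * β)) (p * y n) - Int.fract (p * β)) -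
          (pre (Int.fract (p * α)) (p * y n) - Int.fract (p * α)))| ≤ q / p * (E + 1) := by
      rw [abs_mul, abs_of_pos (by positivity)]
      calc 1 / (p : ℝ) * _ ≤ 1 / (p : ℝ) * (q * (E + 1)) := mul_le_mul_of_nonneg_left h2 (by positivity)
        _ = q / p * (E + 1) := by ring
    linarith
  intro α β h0 h1 h2
  rw [count_eq y N h1]
  have hx1 : α ≤ 1 := h1.trans h2
  have hy0 : 0 ≤ β := h0.trans h1
  -- the neighbours in the grid
  have hnb : ∀ x : ℝ, 0 ≤ x → x ≤ 1 → ∃ a b : ℕ, a ≤ p * 2 ^ K ∧ b ≤ p * 2 ^ K ∧ (a : ℝ) / (p * 2 ^ K) ≤ x ∧ x ≤ (b : ℝ) / (p * 2 ^ K) ∧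
      x - (a : ℝ) / (p * 2 ^ K) ≤ 1 / (p * 2 ^ K) ∧ (b : ℝ) / (p * 2 ^ K) - x ≤ 1 / (p * 2 ^ K) := by
    intro x hx0 hx1
    have hz0 : 0 ≤ x * (p * 2 ^ K) := by positivity
    have hz1 : x * (p * 2 ^ K) ≤ ((p * 2 ^ K : ℕ) : ℝ) := by
      push_cast
      nlinarith
    refine ⟨⌊x * (p * 2 ^ K)⌋₊, ⌈x * (p * 2 ^ K)⌉₊, ?_, ?_, ?_, ?_, ?_, ?_⟩
    · exact_mod_cast (Nat.floor_le hz0).trans hz1
    · exact Nat.ceil_le.2 hz1
    · rw [div_le_iff₀ hM0]
      exact Nat.floor_le hz0
    · rw [le_div_iff₀ hM0]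
      exact Nat.le_ceil _
    · have := Nat.lt_floor_add_one (x * (p * 2 ^ K))
      rw [sub_le_iff_le_add, ← add_div, le_div_iff₀ hM0]
      linarith
    · have := Nat.ceil_lt_add_one hz0
      rw [sub_le_iff_le_add, div_le_iff₀ hM0, add_mul, div_mul_cancel₀ _ hM0.ne']
      linarith
  obtain ⟨a₁, a₂, ha₁, ha₂, l1, l2, l3, l4⟩ := hnb α h0 hx1
  obtain ⟨b₁, b₂, hb₁, hb₂, m1, m2, m3, m4⟩ := hnb β hy0 h2
  have hup : ∀ {x z : ℝ}, x ≤ z → Zs y N x ≤ Zs y N z + N * (z - x) := by
    intro x z hxz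
    unfold Zs
    rw [← card_range N, ← nsmul_eq_mul, ← sum_const, card_range, ← sum_add_distrib]
    refine sum_le_sum fun n _ => ?_
    have := pre_mono hxz (y n)
    linarith
  have u1 := hup m2
  have u2 := hup l1
  have u3 := hup m1
  have u4 := hup l2
  have g1 := hgrid a₁ b₂ ha₁ hb₂
  have g2 := hgrid a₂ b₁ ha₂ hb₁
  have e1 : (N : ℝ) * ((b₂ : ℝ) / (p * 2 ^ K) - β) ≤ N * (1 / (p * 2 ^ K)) := mul_le_mul_of_nonneg_left m4 hN0
  have e2 : (N : ℝ) * (α - (a₁ : ℝ) / (p * 2 ^ K)) ≤ N * (1 / (p * 2 ^ K)) := mul_le_mul_of_nonneg_left l3 hN0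
  have e3 : (N : ℝ) * (β - (b₁ : ℝ) / (p * 2 ^ K)) ≤ N * (1 / (p * 2 ^ K)) := mul_le_mul_of_nonneg_left m3 hN0
  have e4 : (N : ℝ) * ((a₂ : ℝ) / (p * 2 ^ K) - α) ≤ N * (1 / (p * 2 ^ K)) := mul_le_mul_of_nonneg_left l4 hN0
  have e5 : 2 * (N : ℝ) / (p * 2 ^ K) = N * (1 / (p * 2 ^ K)) + N * (1 / (p * 2 ^ K)) := by ring
  rw [abs_le] at g1 g2 ⊢
  constructor
  · linarith [g2.1]
  · linarith [g1.2]

/-- for a sequence with `p y n = q y (n + 1)`, `q < p`, the discrepancy is controlled by the functions of mean zero over the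
first digit -/
theorem red {p q : ℕ} (hq : 1 ≤ q) (hqp : q < p) {y : ℕ → ℝ} (hy : ∀ n, (p : ℝ) * y n = q * y (n + 1)) {N K : ℕ}
    {S : ℝ} (hG : ∀ b ≤ p * 2 ^ K, |∑ n ∈ range N, G p (b / (p * 2 ^ K)) (y n)| ≤ S) :
    DiscLe y N (p / (p - q) * (2 * S + 1 + 2 * N / (p * 2 ^ K))) := by
  have hp : 0 < p := by omega
  have hp0 : (0 : ℝ) < p := by exact_mod_cast hp
  have hpq : (0 : ℝ) < p - q := by
    have : (q : ℝ) < p := by exact_mod_cast hqp
    linarith
  -- the best bound
  set T : Set ℝ := {r | ∃ α β : ℝ, 0 ≤ α ∧ α ≤ β ∧ β ≤ 1 ∧ r = |(((range N).filter fun j : ℕ => α ≤ Int.fract (y j) ∧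
    Int.fract (y j) < β).card : ℝ) - N * (β - α)|} with hT
  have hbdd : BddAbove T := by
    refine ⟨N, ?_⟩
    rintro r ⟨α, β, h0, h1, h2, rfl⟩
    have h3 : (((range N).filter fun j : ℕ => α ≤ Int.fract (y j) ∧ Int.fract (y j) < β).card : ℝ) ≤ N := by
      have := card_filter_le (range N) (fun j : ℕ => α ≤ Int.fract (y j) ∧ Int.fract (y j) < β)
      rw [card_range] at this
      exact_mod_cast this
    have h4 : (0 : ℝ) ≤ (((range N).filter fun j : ℕ => α ≤ Int.fract (y j) ∧ Int.fract (y j) < β).card : ℝ) := Nat.cast_nonneg _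
    have hN0 : (0 : ℝ) ≤ N := Nat.cast_nonneg N
    have h5 : 0 ≤ (N : ℝ) * (β - α) := mul_nonneg hN0 (by linarith)
    have h6 : (N : ℝ) * (β - α) ≤ N * 1 := mul_le_mul_of_nonneg_left (by linarith) hN0
    rw [abs_le]
    constructor <;> linarith
  have hne : T.Nonempty := ⟨_, 0, 1, le_rfl, zero_le_one, le_rfl, rfl⟩
  have hE : DiscLe y N (sSup T) := fun α β h0 h1 h2 => le_csSup hbdd ⟨α, β, h0, h1, h2, rfl⟩
  have h1 := improve hq hqp hy hG hE
  have h2 : sSup T ≤ 2 * S + q / p * (sSup T + 1) + 2 * N / (p * 2 ^ K) := by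
    refine csSup_le hne ?_
    rintro r ⟨α, β, h0, h1', h2, rfl⟩
    exact h1 α β h0 h1' h2
  have h3 : sSup T ≤ p / (p - q) * (2 * S + 1 + 2 * N / (p * 2 ^ K)) := by
    have h4 : (q : ℝ) / p ≤ 1 := by
      rw [div_le_one hp0]
      exact_mod_cast hqp.le
    have h5 : (1 - (q : ℝ) / p) * sSup T ≤ 2 * S + 1 + 2 * N / (p * 2 ^ K) := by nlinarith
    have h6 : (1 - (q : ℝ) / p) = (p - q) / p := by field_simp
    rw [h6] at h5
    rw [div_mul_eq_mul_div, le_div_iff₀ hpq]
    rw [div_mul_eq_mul_div, div_le_iff₀ hp0] at h5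
    nlinarith
  exact fun α β h0 h1 h2 => (hE α β h0 h1 h2).trans h3

/-- the same from the functions `hel p a (first digit) * haar k i (p y)` -/
theorem red_hel {p q : ℕ} (hq : 1 ≤ q) (hqp : q < p) {y : ℕ → ℝ} (hy : ∀ n, (p : ℝ) * y n = q * y (n + 1)) {N K : ℕ}
    {S : ℝ} (hS : 0 ≤ S) (h0 : ∀ a, 1 ≤ a → a < p → |∑ n ∈ range N, hel p a (dig p (y n))| ≤ S)
    (h1 : ∀ a, 1 ≤ a → a < p → ∀ k < K, ∀ i < 2 ^ k, |∑ n ∈ range N, hel p a (dig p (y n)) * haar k i (p * y n)| ≤ S) :
    DiscLe y N (p / (p - q) * (2 * ((p + K) * (p ^ 2 * S)) + 1 + 2 * N / (p * 2 ^ K))) := by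
  have hp : 0 < p := by omega
  refine red hq hqp hy fun b hb => G_grid hp hb (by positivity) (fun j hj => ?_) (fun j hj k hk i hi => ?_)
  · have := wj_bound hp (y := y) (x := fun _ => 1) hS (fun a ha1 ha2 => by simpa using h0 a ha1 ha2) hj
    simpa using this
  · exact wj_bound hp (y := y) (x := fun n => haar k i (p * y n)) hS (fun a ha1 ha2 => h1 a ha1 ha2 k hk i hi) hj

end Pool.Agent.Helper78.LD4
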